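import Pool.Agent.L0h13.SP.Fin

/-!
# The standard conjecture D for products of K3 surfaces over all fields of characteristic `p`

Let `X` be a variety over any field `K`, which specializes, together with its divisor, to a variety
`Y` over another field `k`, for instance an algebraic closure of a finite field (`Specializes`: the
known properties of the specialization of cycles in smooth projective families). The first part of
the theorem: if the standard conjecture of Hodge type is true for `Y`, then it is true for `X`; and if
`X` satisfies the conjecture A of Lefschetz type (as all products of surfaces and abelian varieties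
do, by Kleiman and Lieberman), homological and numerical equivalence coincide on `X`, for the cycles
of all codimensions.

The second part applies this to the case that `Y` is a product of K3 surfaces of finite height over
an algebraic closure of a finite field (`IsK3Like`; or other varieties with cohomology of this
type), times an arbitrary variety `U` satisfying the conjecture of Hodge type whose slopes are in `Γ`.
With `n i` copies of the `i`-th surface, of height `h i`, it is assumed that `|a i| ≤ n i` and
`∑ a i / h i ∈ Γ` for integers `a i` only if all `a i` are zero, and that `n i ≤ 2`, or that the height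
is odd, with four exceptional pairs of rank and height (or other conditions: `Admissible`). Known
is, and assumed is, the conjecture of Hodge type for the products of two copies of the same surface
(Ito, Ito and Koshikawa). Then the conjecture D, for `ℓ`-adic homological equivalence for all `ℓ ≠ p`
and cycles of all codimensions, holds for `X`.

Every K3 surface over a field `K` of characteristic `p` is the generic fibre of a smooth family
over a scheme of finite type over the prime field, and the height is constant on a dense open
subset. So for example:

* the conjecture D holds for all powers of all K3 surfaces of odd height `h` over **all** fields of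
  characteristic `p`, in particular for all powers of ordinary K3 surfaces, except possibly if
  `(ρ, h)` is one of `(10, 3), (4, 3), (2, 3), (2, 5)` for the Picard number `ρ` of the reduction;
* it holds for all products of K3 surfaces of pairwise different finite heights over all fields of
  characteristic `p` (except possibly if three of them have the heights `2, 3, 6`).

Over finite fields these cases were known; over other fields of characteristic `p` the Tate
conjecture is not known for these products, and only the positivity makes it possible to pass from
the reduction to `X`.
-/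

set_option autoImplicit false

open CategoryTheory AlgebraicGeometry NumberField

universe u v u' v'

namespace Pool.Agent.Results.MP_5f0950_ag.K3ProductsAllFields

open Pool.Agent.H914 Pool.Agent.W534 Pool.Agent.TH121.KT Pool.Agent.W517.K3 Pool.Agent.W552
  Pool.Agent.H281R3.HT Pool.Agent.N179.TL Pool.Agent.N179.HT Pool.Agent.L0h13.SP VarClass Obj
  WeilCohomology

/-- **The standard conjectures of Hodge type and D for products of K3 surfaces over all fields of
characteristic `p`.** -/
theorem result {K : Type u'} [Field K] {𝒱' : VarClass K} {ops' : CycleOps 𝒱'}
    (W' : WeilCohomology.{u', v'} ops') (X : Polarized 𝒱') (hX : X.X.IsCyc 1 X.D)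
    {k : Type u} [Field k] {𝒱 : VarClass k} {ops : CycleOps 𝒱} (W : WeilCohomology.{u, v} ops) :
    (∀ Y : Polarized 𝒱, Y.X.IsCyc 1 Y.D → HodgeType W Y.X Y.D → TrueIfSpecializes W' X W Y) ∧
    ∀ [IsAlgClosed W.K] (p : ℕ) [Fact p.Prime] (Φ : FrobSystem W p) {r : ℕ} (Y : Fin r → 𝒱.Obj)
      (e : Fin r → ℕ) (E : Fin r → Type) [∀ i, Field (E i)] [∀ i, NumberField (E i)]
      [∀ i, IsCMField (E i)] (α : ∀ i, E i) (h b : Fin r → ℕ)
      (_ : ∀ i, IsK3Like Φ (Y i) (e i) (α i) (h i) (b i))
      (Γ : Set ℚ) (_ : (0 : ℚ) ∈ Γ) {n : ℕ} (P : Fin (n + 1) → Polarized 𝒱)
      (idx : Fin (n + 1) → Fin r) (_ : ∀ a, (P a).X = Y (idx a))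
      (_ : Admissible Γ h b (fun i => Module.finrank ℚ (E i) / 2)
        (fun i => localDegree p (α i)) (copies idx))
      (_ : ∀ a, (P a).X.IsCyc 1 (P a).D)
      (_ : ∀ a, 0 < (P a).X.V.degCycle (divPow ops (P a).D (P a).X.dim (P a).X.V.fundCycle))
      (_ : ∀ a, HardLefschetz W (P a).X (P a).D)
      (_ : ∀ a b, idx a = idx b →
        HodgeType W ((P a).prod ops (P b)).X ((P a).prod ops (P b)).D),
      TrueIfSpecializes W' X W (nest ops n P) ∧
      ∀ U : Polarized 𝒱, SlopesIn Φ Γ U.X → U.X.IsCyc 1 U.D → HardLefschetz W U.X U.D →
        HodgeType W U.X U.D → TrueIfSpecializes W' X W ((nest ops n P).prod ops U) := by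
  refine ⟨fun Y hY hH => trueIfSpecializes hX hY hH, ?_⟩
  intro _ p _ Φ r Y e E _ _ _ α h b hY Γ hΓ n P idx hP hA hD hdeg hHL hH2
  obtain ⟨-, h2, h3⟩ := (data_mk (fun i => (hY i).isK3Variety) hΓ hP hA hD hdeg hHL hH2).final
  refine ⟨trueIfSpecializes hX (nest_div n P hD) h2, ?_⟩
  intro U hU hUD hUL hUH
  exact trueIfSpecializes hX (SmVar.IsCyc.add (ops.pull_mem _ (nest_div n P hD))
    (ops.pull_mem _ hUD)) ((h3 U hU hUD hUL).2.2 hUH)

end Pool.Agent.Results.MP_5f0950_ag.K3ProductsAllFields
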