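import Pool.Agent.L0h14.DD.Fin

/-!
# Numerical and homological equivalence of one-cycles on varieties which are fibred over a curve

Let `k` be a finitely generated field, for instance of characteristic `p`, and `H` the `ℓ`-adic cohomology. Let `Y` be a
smooth projective variety over `k` with a morphism to a curve `C` whose generic fibre `A` over `K = k(C)` is smooth, and let
`X` be a variety of the same dimension which is dominated by `Y` (or a retract of `Y` in the sense of correspondences), for
instance a variety with a dominant rational map to `C` whose indeterminacy is resolved by `Y`.

Theorem. If the Tate classes in the fixed part of `H^2(Ā)(1)`, the image of `H^2(Y)(1)`, are combinations of classes of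
divisors, in particular if the Tate conjecture for divisors holds for the generic fibre `A`, then numerical and homological
equivalence coincide for the cycles of dimension one on `X`. If `X` is a threefold they coincide in all codimensions.

Neither the Tate conjecture for divisors on `X`, which would imply the theorem but is equivalent to the Tate conjecture for `A`
together with the finiteness of a Tate-Shafarevich group, nor any finiteness of such groups is assumed. The Tate conjecture for
divisors is known, over finitely generated fields, for abelian varieties (Tate, Zarhin, Faltings), K3 surfaces, and
varieties which are dominated by products of curves. So conjecture D holds, over all fields of characteristic `p`, for the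
threefolds which are fibred over a curve in abelian surfaces, K3 surfaces, Enriques and bielliptic surfaces, or surfaces which are
dominated by products of curves; and for the threefolds with an elliptic fibration `X → S`: if the invariant `j` is not
constant the generic fibre of `j : X ⇢ ℙ¹` is dominated by `E × D'`, and otherwise every pencil on `S` has this property.

The proof: let `z` be a numerically trivial one-cycle. Murre's Picard projector of `A` spreads out to a correspondence of
`Y` which factors through a surface `S`, and which acts on the kernel of `H^2(Y) → H^2(Ā)`, up to divisors, as the
identity. As numerically trivial divisors on `S` are homologically trivial, `z` is orthogonal to this kernel. So `z` defines a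
functional on the fixed part, which is given by a Tate class. By assumption it is algebraic, and it is orthogonal to
all divisors; by the Hodge index theorem it is zero.
-/

set_option autoImplicit false

universe u v w u' v'

open CategoryTheory

namespace Pool.Agent.Results.MP_5f0950_ag.OneCyclesOverCurves

open Pool.Agent.L0h14.CK Pool.Agent.L0h14.DD

/-- Let `T` be the theory of correspondences over a field `k` with a Weil cohomology, `Φ` the relation to the correspondences over
the function field of a curve, `A` a variety over this function field with the total space `Φ.model A` over `k`, and `G` the
Galois action on the second cohomology of the geometric generic fibre. If the Tate classes in the fixed part are algebraic, then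
numerical and homological equivalence coincide for the cycles of dimension one on all varieties `X` which are direct factors of
`Φ.model A` by correspondences of degree zero, with `dim X = dim (Φ.model A)`, and if `dim X = 3` they coincide on `X` in all
codimensions. -/
theorem result {𝒱 : Type u} [Category.{v} 𝒱] [Preadditive 𝒱] [Linear ℚ 𝒱] {F : Type w} [Field F]
    (T : CycleTheory 𝒱 F) {𝒲 : Type u'} [Category.{v'} 𝒲] (Φ : Spread T.toCorrTheory 𝒲) (A : 𝒲)
    (G : FibreData T (Φ.model A)) (hG : G.Good (Φ.van A)) (hT : G.Tate) (X : 𝒱) (hX : T.Factor X (Φ.model A)) :
    T.OneCycles X ∧ (T.dim X = 3 → T.ConjectureD X) :=
  main T Φ A G hG hT X hX

end Pool.Agent.Results.MP_5f0950_ag.OneCyclesOverCurves
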