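import Pool.Agent.L0h13.DN.Main

/-!
# The theorem of Clozel for arbitrary varieties over finite fields, with density `2 ^ (-r)`

For abelian varieties over finite fields Clozel proved that homological and numerical equivalence
coincide for the `ℓ`-adic cohomology, for all `ℓ` in a set of positive density: those for which the
decomposition group of `ℓ` in the Galois group `Γ` of the (CM) field `E` generated by the eigenvalues
of Frobenius contains the complex conjugation `c`. This is one element of `Γ`. Here the theorem is
extended to **arbitrary** varieties over finite fields, in the codimensions up to half the
dimension, if Frobenius has a simple spectrum in each degree (or if its commutant is spanned by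
algebraic correspondences, as for `H¹`), and the exceptional set is made much smaller, for abelian
varieties as well.

Let `X_t` be finitely many varieties over the field with `q` elements, and consider the pairs
`(X_t, i)` with `i ≤ b` (`i = 1` for abelian varieties). The *letters* are the eigenvalues `a` of
Frobenius on these `H^i(X_t)`; `a ↦ q^i / a = c a` is an involution on them, and `Γ` acts on them. An
*odd relation* is a function `v` on the letters with `v (c a) = - v a` and `∏ a ^ (N v(a)) = 1` for
some `N > 0`. The odd relations measure the Tate classes on products of the `X_t` which are not
generated by those given by the polarizations `H^i ⊗ H^i → ℚ(-i)`. Let `r` be the rank of the space of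
odd relations, and call `g` in `Γ` *free* if no nonzero odd relation is invariant under `g`. For
instance `c` is free as it is `-1` on the odd relations, and if `r = 0` all `g` are free.

**Theorem.**
1. At least `2 ^ (-r) |Γ|` elements of `Γ` are free.
2. `r` is less than half the number of the letters, unless all `a / c a` are roots of unity; then
   the number of free elements is at least `2 ^ (1 - g) |Γ|` if there are at most `2 g` letters. So for
   an abelian variety `A` of dimension `g` over an algebraic closure of a finite field this is at
   least `2 ^ (1 - g) |Γ|` (if `A` is supersingular we may assume that all letters are `√q`, so that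
   `r = 0`), whereas `|Γ|` itself can be `2 ^ g g!`.
3. Let `W` be a Weil cohomology theory with coefficients `K` such that a free element is induced by
   an automorphism of `K̄` over `K`. Then all cycles of codimension `j` with `2 j ≤ b` which are
   numerically equivalent to zero are homologically equivalent to zero on all products (with
   repetitions) of the `X_t`, where we assume for each `t` that `X_t` is an abelian variety, or that
   `b ≤ dim X_t`, or that the standard conjecture of Lefschetz type is true for `X_t` (so for surfaces).
   If all `X_t` are of the first or last kind (abelian varieties, surfaces, ...) we may take any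
   `b`, and get the conjecture D in all codimensions, for all products.

For `ℓ`-adic cohomology the condition in 3 is that the decomposition group of `ℓ` in `Γ`, up to
conjugation, contains a free element, and by the theorem of Chebotarev the set of these `ℓ` has
density at least `2 ^ (-r)`. In particular for a fourfold (or any variety of dimension `≥ 4`) with
simple Frobenius spectrum on `H^i`, `i ≤ 4`, homological and numerical equivalence coincide for
cycles of codimension two on `X` and all powers of `X`, for a set of `ℓ` of density `≥ 2 ^ (-r)`; and for
a surface with simple spectrum on `H¹` and `H²` this holds for all cycles on all powers.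

Nothing is assumed about the standard conjectures, except for `X_t` in the last case above.
The proof. The eigenspaces of Frobenius are cut out by algebraic correspondences over `K̄`; by hard
Lefschetz the eigenspaces `H^i(X)_a` and `H^i(X)_(c a)` are dual by an algebraic class. A word
`a_1 ⋯ a_m` in the letters with a nonzero algebraic class is a relation, its odd part is killed by
the norm of the group generated by the free element, so that the norm of the line of the word is the
same as the norm of the line of the dual word, and so some tensor power of the product of a
numerically trivial class is zero. Part 1 follows from the formula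
`∑_g det (1 + g) = |Γ| ∑_i dim (Λ^i R)^Γ ≥ |Γ|` for the space `R` of odd relations, as `det (1 + g)` is
at most `2 ^ r`, and is not zero if and only if `c g` is free.
-/

set_option autoImplicit false

universe u v

namespace Pool.Agent.Results.MP_5f0950_ag.SimpleSpectrumDensity

open Pool.Agent.H914 Pool.Agent.W534 Pool.Agent.L0h13.DN

/-- **The theorem of Clozel for arbitrary varieties.** -/
theorem result {ι E : Type} [Fintype ι] [Field E] [NumberField E] (S : WeilSystem ι E) :
    (Nat.card (E ≃ₐ[ℚ] E) ≤ 2 ^ S.oddRank * Nat.card {g : E ≃ₐ[ℚ] E // S.IsFree g}) ∧
    ((∃ x : S.Letters, ∀ n : ℕ, 0 < n → S.val x ^ n ≠ S.c (S.val x) ^ n) →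
      2 * Nat.card (E ≃ₐ[ℚ] E) ≤
        2 ^ (Nat.card S.Letters / 2) * Nat.card {g : E ≃ₐ[ℚ] E // S.IsFree g}) ∧
    ∀ {k : Type u} [Field k] {𝒱 : VarClass k} {ops : CycleOps 𝒱}
      (W : WeilCohomology.{u, v} ops) {p : ℕ} (Φ : FrobSystem W p) (X : ι → 𝒱.Obj),
      IsFamily S Φ X → ∀ (φ : E →+* AlgebraicClosure W.K)
        (σ : AlgebraicClosure W.K ≃ₐ[W.K] AlgebraicClosure W.K) (g : E ≃ₐ[ℚ] E),
        (∀ a, σ (φ a) = φ (g a)) → S.IsFree g → DUpToDegree W X S.w := by
  refine ⟨S.card_le_isFree, S.two_mul_card_le', ?_⟩
  intro k _ 𝒱 ops W p Φ X hX φ σ g hσ hg
  exact dUpToDegree hX φ hσ hg

end Pool.Agent.Results.MP_5f0950_ag.SimpleSpectrumDensity
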