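import Pool.Agent.L0h13.QD.Fin

/-!
# A zero-one law for the conjecture D

Let `X` be a smooth projective variety (over any field, with any Weil cohomology; `K` is an algebraically
closed field containing the field of coefficients) for which the sign conjecture `C⁺` holds: the projector onto the even
cohomology is algebraic (known for all varieties over finite fields, for abelian varieties, surfaces,
complete intersections, and products of these). Motives are motives with coefficients in `K`, with
correspondences of all degrees.

* `NumMotives`: the motives modulo numerical equivalence (Jannsen: a semisimple category). `R` is the semiring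
  of isomorphism classes with direct sum and tensor product, `mult x s` is the multiplicity of the simple
  motive `s` in `x`, `dim x` is the dimension of the cohomology. (By `C⁺` the numerically trivial
  correspondences are nilpotent modulo homological equivalence, so that `x` lifts to a motive modulo
  homological equivalence, unique up to isomorphism; its cohomology has dimension `dim x`.) `M.rk x` is the
  multiplicity of the unit motive, so `M.rk (v ^ r)`, where `v` is the class of the motive of `X`, is the rank of the group of
  algebraic cycles (of all codimensions) on `X^r` modulo numerical equivalence.
* `H x` is the dimension of the `K`-span of the cycle classes in the cohomology of `x`; it is additive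
  because a decomposition of a motive modulo numerical equivalence lifts. `H (v ^ r) = M.rk (v ^ r)` means
  that the conjecture D holds for `X^r` (in all codimensions).
* `FullGrowth`: the ranks `M.rk (v ^ (2 k))` are not bounded by `c ^ k` if `c < (dim v) ^ 2`. It follows
  from `C⁺` (the graphs of the permutations of the factors suffice by Schur-Weyl duality); it is equivalent to the nilpotence of the numerically
  trivial correspondences on all powers (`MP_fd35e1_ag.IntegralGrowthRate`).
* `CycleAlgebra`: by the theorem of André and Kahn the projection from the motives generated by `X` modulo
  homological equivalence to those modulo numerical equivalence has a monoidal section, so by Deligne the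
  latter are the representations of a reductive group `G` (after the change of signs which `C⁺` allows), with
  the cohomology as fibre functor. `B` is the algebra of the functions `g ↦ l (g z)` on `G`, `z` a cycle
  class modulo homological equivalence, `l` a linear form on the cohomology. It is reduced (Cartier); `G` acts by translations;
  `part s` belongs to the simple motive `s`, and is isomorphic to the tensor product of the space of the
  cycle classes on `s` with the dual of the cohomology of `s`; the classes on `s ≠ 1` are numerically trivial and
  numerically trivial classes form an ideal.

**Theorem.** Let `b` be the sum of the Betti numbers of `X`, `r_k` the rank of the cycles on `X^(2k)` modulo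
numerical equivalence and `h_k` the dimension of the span of their cohomology classes.

1. If D fails for `X^r`, then `h_k ≥ (1 + b^(-2r)) r_k` for all `k ≥ r`.
2. Either D holds for all powers of `X`, or `h_k / r_k` tends to infinity.

So if the proportion `r_k / h_k` does not tend to zero then D holds for all powers of `X`: the proportion of the
numerically nontrivial classes tends to `1` or to `0`.

3. The dimension of the cohomology of a direct summand `y` of a power `X^(2s)` is the limit of the quotients of the ranks
   `M.rk (y * v ^ (2 k)) / M.rk (v ^ (2 k))`.

The proof. By the inequality of Cauchy-Schwarz for the multiplicities and the tensor power trick,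
`rk (y v^(2k)) ≤ dim y * rk (v^(2k))` for all `y`. As the sequence `rk (v^(2k))` is logarithmically convex, the quotients of
successive terms converge to `b ^ 2`, and this forces equality in the limit, which is 3. So `h_k / r_k` converges
to `N = ∑ H s * dim s`, the sum over all simple motives in powers of `X`, which is the dimension of `B`. If it
is finite, then the trace of `B` is an invariant linear form, so it vanishes on the ideal of the
numerically trivial classes, which is generated by an idempotent as `B` is reduced; so the ideal is zero.
-/

set_option autoImplicit false

open Filter Topology

namespace Pool.Agent.Results.MP_5f0950_ag.ZeroOneLaw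

open Pool.Agent.L0h13.QD NumMotives

/-- **A zero-one law for the conjecture D.** -/
theorem result (M : NumMotives) (v : M.R) (hv : M.IsVariety v) (hg : M.FullGrowth v)
    (H : M.R →+ ℕ) (h1 : H 1 = 1) :
    -- 1. a gap
    (∀ r k : ℕ, H (v ^ r) ≠ M.rk (v ^ r) → r ≤ k →
      (M.dim v ^ (2 * r) + 1) * M.rk (v ^ (2 * k)) ≤ M.dim v ^ (2 * r) * H (v ^ (2 * k))) ∧
    -- 2. the zero-one law
    (Nonempty (CycleAlgebra M v H) →
      (∀ r : ℕ, H (v ^ r) = M.rk (v ^ r)) ∨
        Tendsto (fun k : ℕ => (H (v ^ (2 * k)) : ℝ) / (M.rk (v ^ (2 * k)) : ℝ)) atTop atTop) ∧
    -- 3. the dimension of the cohomology of a motive as a limit of ranks
    (∀ (s : ℕ) (y y' : M.R), y + y' = v ^ (2 * s) →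
      Tendsto (fun k : ℕ => (M.rk (y * v ^ (2 * k)) : ℝ) / (M.rk (v ^ (2 * k)) : ℝ)) atTop
        (𝓝 (M.dim y))) := by
  refine ⟨fun r k hr hk => gap hv H h1 r hr k hk, ?_, fun s y y' hy => tendsto_summand hv hg s y y' hy⟩
  rintro ⟨C⟩
  rcases index_eq_one_or_top hv h1 C with h | h
  · left
    intro r
    apply all_of_index_lt_two hv H h1
    rw [h]; norm_num
  · right
    exact tendsto_atTop_of_index hv hg H h

end Pool.Agent.Results.MP_5f0950_ag.ZeroOneLaw
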